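import Pool.Agent.TH137.PG.Transfinite

/-!
# Free 2-transitive subgroups of PGL(n,F) for n at least 6

Let F be an uncountable field, or more generally a field that is not algebraic over any finitely
generated subfield.  For r at least 2 and n at least 3r there is a free subgroup G of PGL(n,F) such
that every linear isomorphism between r-dimensional subspaces of F^n is induced by an element of G
(so G is 2-transitive on points, and transitive on ordered r-tuples of independent points), while
every nontrivial element g of G satisfies rank (g - c) at least 2r for every scalar c; in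
particular G does not contain PSL(n,F).  Moreover G can be chosen to contain any given free
subgroup with this last property generated by fewer than |F| elements.
-/

namespace Pool.Agent.Results.MP_c32cfc_al.FreeTwoTransitive

open Matrix Cardinal
open scoped LinearAlgebra.Projectivization MatrixGroups
open Pool.Agent.TH137.PG

universe u

section aux

variable {F : Type u} [Field F]

/-- the blocks -/
def bl (r n : ℕ) (hn : 3 * r ≤ n) (o : Option Bool) (i : Fin r) : Fin n :=
  match o with
  | none => ⟨i, by omega⟩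
  | some true => ⟨r + i, by omega⟩
  | some false => ⟨2 * r + i, by omega⟩

theorem bl_inj (r n : ℕ) (hn : 3 * r ≤ n) :
    Function.Injective fun x : Option Bool × Fin r => bl r n hn x.1 x.2 := by
  rintro ⟨o, i⟩ ⟨o', j⟩ h
  rcases o with _ | _ | _ <;> rcases o' with _ | _ | _ <;>
    simp only [bl, Fin.mk.injEq] at h <;>
    first
      | (have hi := i.2; have hj := j.2; exfalso; omega)
      | (have : i = j := Fin.ext (by omega)
         rw [this])

theorem exists_ext {n r : ℕ} (hr : 2 ≤ r) (hn : r ≤ n) (v : Fin 2 → (Fin n → F))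
    (hv : LinearIndependent F v) :
    ∃ α : Fin r → (Fin n → F), LinearIndependent F α ∧ α ⟨0, by omega⟩ = v 0 ∧
      α ⟨1, by omega⟩ = v 1 := by
  obtain ⟨h, hh⟩ := exists_cols (F := F) (Fin.castLE (le_trans hr hn)) (Fin.castLE_injective _) v hv
  have hli : LinearIndependent F (h : Matrix (Fin n) (Fin n) F).col :=
    Matrix.linearIndependent_cols_iff_isUnit.2 h.isUnit
  refine ⟨fun i => (h : Matrix (Fin n) (Fin n) F).col (Fin.castLE hn i),
    hli.comp _ (Fin.castLE_injective _), ?_, ?_⟩
  · funext k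
    exact hh 0 k
  · funext k
    exact hh 1 k

theorem good_scalar {n r : ℕ} {g A : GL (Fin n) F} (hg : Good r g) (z : Fˣ)
    (h : g * GeneralLinearGroup.scalar (Fin n) z = A) : Good r A := by
  intro c
  have e1 : (A : Matrix (Fin n) (Fin n) F) = (z : F) • (g : Matrix (Fin n) (Fin n) F) := by
    rw [← h]
    ext i j
    simp [mul_comm]
  have e2 : (A : Matrix (Fin n) (Fin n) F) - c • (1 : Matrix (Fin n) (Fin n) F) =
      (z : F) • ((g : Matrix (Fin n) (Fin n) F) - ((z : F)⁻¹ * c) •
        (1 : Matrix (Fin n) (Fin n) F)) := by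
    rw [e1, smul_sub, smul_smul, mul_inv_cancel_left₀ z.ne_zero]
  have e3 : (g : Matrix (Fin n) (Fin n) F) - ((z : F)⁻¹ * c) • (1 : Matrix (Fin n) (Fin n) F) =
      ((z : F)⁻¹ • (1 : Matrix (Fin n) (Fin n) F)) *
        ((A : Matrix (Fin n) (Fin n) F) - c • (1 : Matrix (Fin n) (Fin n) F)) := by
    rw [e2, Matrix.smul_mul, Matrix.one_mul, smul_smul, inv_mul_cancel₀ z.ne_zero, one_smul]
  refine (hg ((z : F)⁻¹ * c)).trans ?_
  rw [e3]
  exact Matrix.rank_mul_le_right _ _

end aux

theorem result {F : Type u} [Field F]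
    (hF : Uncountable F ∨
      ∀ s : Finset F, ∃ t : F, Transcendental (Subfield.closure (s : Set F)) t)
    (r n : ℕ) (hr : 2 ≤ r) (hn : 3 * r ≤ n)
    (S₀ : Type u) (hS₀ : #S₀ < #F) (x₀ : S₀ → GL (Fin n) F)
    (hx₀ : ∀ w : FreeGroup S₀, w ≠ 1 → ∀ c : F,
      2 * r ≤ (((FreeGroup.lift x₀ w : GL (Fin n) F) : Matrix (Fin n) (Fin n) F) -
        c • (1 : Matrix (Fin n) (Fin n) F)).rank) :
    ∃ G : Subgroup PGL(n, F),
      IsFreeGroup G ∧
      MulAction.IsMultiplyPretransitive G (ℙ F (Fin n → F)) 2 ∧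
      (∀ α β : Fin r → (Fin n → F), LinearIndependent F α → LinearIndependent F β →
        ∃ A : GL (Fin n) F, ProjGenLinGroup.mk A ∈ G ∧ ∀ i, A • α i = β i) ∧
      (∀ A : GL (Fin n) F, ProjGenLinGroup.mk A ∈ G → ProjGenLinGroup.mk A ≠ 1 →
        ∀ c : F, 2 * r ≤ ((A : Matrix (Fin n) (Fin n) F) -
          c • (1 : Matrix (Fin n) (Fin n) F)).rank) ∧
      ¬ (ProjectiveSpecialLinearGroup.toPGL (n := Fin n) (R := F)).range ≤ G ∧
      ∀ s, ProjGenLinGroup.mk (x₀ s) ∈ G := by
  classical
  have hbig : Big F := by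
    rcases hF with hF | hF
    · exact big_of_uncountable (Cardinal.aleph0_lt_mk_iff.2 hF)
    · exact big_of_fg hF
  have hinf := hbig.infinite
  let T : Type u := {β : Fin r → (Fin n → F) // LinearIndependent F β}
  have hT : #T ≤ #F := by
    refine (mk_subtype_le _).trans ?_
    rw [mk_pi, prod_const, mk_pi, prod_const]
    simp only [mk_fin, lift_natCast, lift_uzero]
    have h1 : ∀ (c : Cardinal.{u}) (m : ℕ), ℵ₀ ≤ c → c ^ (m : Cardinal.{u}) ≤ c := by
      intro c m hc
      exact_mod_cast Cardinal.power_nat_le hc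
    have h2 : (#F ^ (n : Cardinal.{u})) ^ (r : Cardinal.{u}) ≤ #F := by
      rw [← Cardinal.power_mul]
      exact_mod_cast h1 (#F) (n * r) (aleph0_le_mk F)
    exact h2
  obtain ⟨x, hx, hgood⟩ := exists_family hbig (bl r n hn) (bl_inj r n hn)
    (by rw [Fintype.card_fin]; exact hn) S₀ hS₀ x₀ hx₀ T hT (fun m => m.1) (fun m => m.2)
  let Ψ : FreeGroup (S₀ ⊕ T) →* PGL(n, F) :=
    (ProjGenLinGroup.mk).comp (FreeGroup.lift (Sum.elim x₀ x))
  have hn1 : 0 < n := by omega
  have hone : ∀ g : GL (Fin n) F, ProjGenLinGroup.mk g = 1 → ¬ Good r g := by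
    intro g hg hgood
    rw [← ProjGenLinGroup.mk_one, eq_comm, ProjGenLinGroup.mk_eq_mk_iff] at hg
    obtain ⟨z, hz⟩ := hg
    have h1 := hgood (z : F)
    have h2 : (g : Matrix (Fin n) (Fin n) F) - (z : F) • (1 : Matrix (Fin n) (Fin n) F) = 0 := by
      rw [← hz]
      ext i j
      simp [Matrix.one_apply, Matrix.diagonal_apply]
    rw [h2, Matrix.rank_zero] at h1
    omega
  have hinj : Function.Injective Ψ := by
    rw [injective_iff_map_eq_one]
    intro w hw
    by_contra hw1
    exact hone _ hw (hgood w hw1)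
  let G : Subgroup PGL(n, F) := Ψ.range
  have hmem : ∀ m : T, ProjGenLinGroup.mk (x m) ∈ G := fun m =>
    ⟨FreeGroup.of (Sum.inr m), by simp [Ψ]⟩
  have hmem0 : ∀ s, ProjGenLinGroup.mk (x₀ s) ∈ G := fun s =>
    ⟨FreeGroup.of (Sum.inl s), by simp [Ψ]⟩
  have hfar : ∀ A : GL (Fin n) F, ProjGenLinGroup.mk A ∈ G → ProjGenLinGroup.mk A ≠ 1 →
      Good r A := by
    rintro A ⟨w, hw⟩ hA
    have hw1 : w ≠ 1 := by
      rintro rfl
      apply hA
      rw [← hw, map_one]
    have h1 : ProjGenLinGroup.mk (FreeGroup.lift (Sum.elim x₀ x) w) = ProjGenLinGroup.mk A := hw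
    rw [ProjGenLinGroup.mk_eq_mk_iff] at h1
    obtain ⟨z, hz⟩ := h1
    exact good_scalar (hgood w hw1) z hz
  have hcol : ∀ (m : T) (i : Fin r), x m • (Pi.single (bl r n hn none i) 1 : Fin n → F) =
      m.1 i := by
    intro m i
    funext k
    change ((x m : Matrix (Fin n) (Fin n) F) *ᵥ Pi.single (bl r n hn none i) 1) k = _
    rw [Matrix.mulVec_single_one]
    exact hx m i k
  have htrans : ∀ α β : Fin r → (Fin n → F), LinearIndependent F α → LinearIndependent F β →
      ∃ A : GL (Fin n) F, ProjGenLinGroup.mk A ∈ G ∧ ∀ i, A • α i = β i := by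
    intro α β hα hβ
    refine ⟨x ⟨β, hβ⟩ * (x ⟨α, hα⟩)⁻¹, ?_, fun i => ?_⟩
    · rw [map_mul, map_inv]
      exact G.mul_mem (hmem _) (G.inv_mem (hmem _))
    · rw [mul_smul]
      have h1 := hcol ⟨α, hα⟩ i
      have h2 := hcol ⟨β, hβ⟩ i
      simp only at h1 h2
      rw [← h1, inv_smul_smul, h2]
  refine ⟨G, ?_, ?_, htrans, fun A hA hA1 => hfar A hA hA1, ?_, hmem0⟩
  · exact IsFreeGroup.ofMulEquiv (MonoidHom.ofInjective hinj)
  · rw [MulAction.is_two_pretransitive_iff]
    intro a b c d hab hcd
    have hrn : r ≤ n := by omega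
    have key : ∀ p q : ℙ F (Fin n → F), p ≠ q → LinearIndependent F ![p.rep, q.rep] := by
      intro p q hpq
      have := (Projectivization.independent_pair_iff_ne p q).2 hpq
      rw [Projectivization.independent_iff] at this
      have h2 : (Projectivization.rep ∘ ![p, q] : Fin 2 → (Fin n → F)) = ![p.rep, q.rep] := by
        funext i
        fin_cases i <;> rfl
      rw [h2] at this
      exact this
    obtain ⟨α, hα, hα0, hα1⟩ := exists_ext hr hrn _ (key a b hab)
    obtain ⟨β, hβ, hβ0, hβ1⟩ := exists_ext hr hrn _ (key c d hcd)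
    obtain ⟨A, hA, hAβ⟩ := htrans α β hα hβ
    have hact : ∀ p q : ℙ F (Fin n → F), A • p.rep = q.rep →
        (⟨ProjGenLinGroup.mk A, hA⟩ : G) • p = q := by
      intro p q hpq
      have h1 : (⟨ProjGenLinGroup.mk A, hA⟩ : G) • p = A • p := by
        induction p using Projectivization.ind with
        | _ v hv => rfl
      rw [h1]
      conv_lhs => rw [← Projectivization.mk_rep p]
      conv_rhs => rw [← Projectivization.mk_rep q]
      rw [Projectivization.smul_mk]
      congr 1
    refine ⟨⟨ProjGenLinGroup.mk A, hA⟩, hact a c ?_, hact b d ?_⟩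
    · have := hAβ ⟨0, by omega⟩
      rw [hα0, hβ0] at this
      exact this
    · have := hAβ ⟨1, by omega⟩
      rw [hα1, hβ1] at this
      exact this
  · intro hle
    let i0 : Fin n := ⟨0, by omega⟩
    let i1 : Fin n := ⟨1, by omega⟩
    have hne : i0 ≠ i1 := by
      intro h; simpa [i0, i1] using congrArg Fin.val h
    let s : SpecialLinearGroup (Fin n) F := ⟨Matrix.transvection i0 i1 1,
      Matrix.det_transvection_of_ne _ _ hne _⟩
    have hsG : ProjGenLinGroup.mk (SpecialLinearGroup.toGL s) ∈ G :=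
      hle ⟨QuotientGroup.mk s, rfl⟩
    have hs : ((SpecialLinearGroup.toGL s : GL (Fin n) F) : Matrix (Fin n) (Fin n) F) =
        Matrix.transvection i0 i1 1 := rfl
    have hsne : ProjGenLinGroup.mk (SpecialLinearGroup.toGL s) ≠ 1 := by
      intro h
      rw [← ProjGenLinGroup.mk_one, eq_comm, ProjGenLinGroup.mk_eq_mk_iff] at h
      obtain ⟨z, hz⟩ := h
      have h1 := congrArg (fun g : GL (Fin n) F => (g : Matrix (Fin n) (Fin n) F) i0 i1) hz
      simp only [hs, Matrix.transvection, Matrix.add_apply] at h1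
      simp [hne] at h1
    have h1 := hfar _ hsG hsne 1
    rw [hs, Matrix.transvection, one_smul, add_sub_cancel_left] at h1
    have h2 : (Matrix.single i0 i1 (1 : F)).rank ≤ 1 := by
      have : Matrix.single i0 i1 (1 : F) =
          Matrix.vecMulVec (Pi.single i0 1) (Pi.single i1 1) := by
        ext i j
        simp only [Matrix.single_apply, Matrix.vecMulVec_apply, Pi.single_apply, ite_and, mul_ite,
          mul_one, mul_zero, eq_comm (a := i0), eq_comm (a := i1)]
        split_ifs <;> rfl
      rw [this]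
      exact Matrix.rank_vecMulVec_le _ _
    omega

end Pool.Agent.Results.MP_c32cfc_al.FreeTwoTransitive
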